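import Mathlib
import Pool.Agent.H75.UqEq

/-! A Leonard pair of `q`-Racah type over an ordered field that does not come from the equitable
presentation of `U_q(sl2)`. -/

set_option autoImplicit false

namespace Pool.Agent.Results.MP_32472a_al.RealQRacah

open Matrix

section defs
variable {K : Type} [Field K] {n : ℕ}

/-- Irreducible tridiagonal matrices. -/
def IrrTri (M : Matrix (Fin n) (Fin n) K) : Prop :=
  ∀ i j : Fin n, ((i : ℕ) + 1 < j ∨ (j : ℕ) + 1 < i → M i j = 0) ∧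
    ((i : ℕ) + 1 = j ∨ (j : ℕ) + 1 = i → M i j ≠ 0)

/-- The matrix of the map `M` in the basis formed by the columns of `P`. -/
def inB (P : (Matrix (Fin n) (Fin n) K)ˣ) (M : Matrix (Fin n) (Fin n) K) :
    Matrix (Fin n) (Fin n) K := P⁻¹.val * M * P.val

/-- In some basis `A` is diagonal, `B` is irreducible tridiagonal, and the diagonal entries of `A`
satisfy the recurrence with parameter `β`. -/
def Half (β : K) (A B : Matrix (Fin n) (Fin n) K) : Prop :=
  ∃ P, IrrTri (inB P B) ∧ (inB P A).IsDiag ∧ ∀ i j k l : Fin n, (j : ℕ) = i + 1 →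
    (k : ℕ) = i + 2 → (l : ℕ) = i + 3 →
      inB P A i i - inB P A l l = (β + 1) * (inB P A j j - inB P A k k)

/-- `A, B` is a Leonard pair with parameter `β`. -/
def LeonardPair (β : K) (A B : Matrix (Fin n) (Fin n) K) : Prop := Half β B A ∧ Half β A B

/-- One equitable relation. -/
def QRel (q : K) (S T : Matrix (Fin n) (Fin n) K) : Prop :=
  (q - q⁻¹)⁻¹ • (q • (S * T) - q⁻¹ • (T * S)) = 1

/-- `X, Xi, Y, Z` make `K ^ n` an irreducible module for the equitable presentation. -/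
def IrrMod (q : K) (X Xi Y Z : Matrix (Fin n) (Fin n) K) : Prop :=
  X * Xi = 1 ∧ Xi * X = 1 ∧ QRel q X Y ∧ QRel q Y Z ∧ QRel q Z X ∧
    ∀ W : Submodule K (Fin n → K),
      (∀ w ∈ W, X *ᵥ w ∈ W ∧ Xi *ᵥ w ∈ W ∧ Y *ᵥ w ∈ W ∧ Z *ᵥ w ∈ W) → W = ⊥ ∨ W = ⊤

/-- `M` is a linear combination of `I, S, T, ST`. -/
def InSpan (M S T : Matrix (Fin n) (Fin n) K) : Prop :=
  ∃ a b c e : K, M = a • (1 : Matrix (Fin n) (Fin n) K) + b • S + c • T + e • (S * T)

end defs

abbrev Mt (K : Type) := Matrix (Fin 4) (Fin 4) K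
def A : Mt ℚ := !![21, 0, 0, 0; 0, 4, 0, 0; 0, 0, -4, 0; 0, 0, 0, -21]
def B : Mt ℚ := !![0, 21, 0, 0; 4, 0, 17, 0; 0, 17, 0, 4; 0, 0, 21, 0]
def P2 : (Mt ℚ)ˣ := ⟨!![1, -21, 21, -1; 1, -4, -4, 1; 1, 4, -4, -1; 1, 21, 21, 1],
  !![2/25, 21/50, 21/50, 2/25; -1/50, -1/50, 1/50, 1/50; 1/50, -1/50, -1/50, 1/50;
    -2/25, 21/50, -21/50, 2/25],
  by decide +kernel, by decide +kernel⟩

instance (M : Mt ℚ) : Decidable (IrrTri M) := by unfold IrrTri; infer_instance

variable {K : Type} [Field K] [LinearOrder K] [IsStrictOrderedRing K]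

def f : Mt ℚ →+* Mt K := (algebraMap ℚ K).mapMatrix

theorem half (P : (Mt ℚ)ˣ) (S T : Mt ℚ) (h : IrrTri (inB P T)) (h' : inB P S = A) :
    Half ((2 : K) ^ 2 + (2 ^ 2)⁻¹) (f S) (f T) := by
  have e : ∀ M, inB (Units.map (f (K := K)).toMonoidHom P) (f M) = f (inB P M) := fun M => by
    simp [inB]
  refine ⟨Units.map (f (K := K)).toMonoidHom P, ?_, ?_, ?_⟩ <;> rw [e]
  · exact fun i j => by simpa [f] using h i j
  · exact IsDiag.map (by rw [h']; unfold IsDiag Pairwise; decide +kernel) (map_zero _)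
  · intro i j k l h1 h2 h3
    obtain rfl : i = 0 := by omega
    obtain rfl : j = 1 := by omega
    obtain rfl : k = 2 := by omega
    obtain rfl : l = 3 := by omega
    simp [h', f, A]
    norm_num

def X0 : Mt K := !![8, 0, 0, 0; -8, 2, 0, 0; 0, -2, 1/2, 0; 0, 0, -1/2, 1/8]
def Y0 : Mt K := !![1/8, 0, 0, 0; 0, 1/2, 0, 0; 0, 0, 2, 0; 0, 0, 0, 8]
def Z0 : Mt K := !![8, 189/32, 0, 0; 0, 2, 225/32, 0; 0, 0, 1/2, 189/32; 0, 0, 0, 1/8]

theorem hq (m : ℕ) (hm : 0 < m) : (2 : K) ^ m ≠ 1 := (one_lt_pow₀ one_lt_two hm.ne').ne'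

theorem nf (x xi y z : Mt K) (h : IrrMod 2 x xi y z) : ∃ (F : Mt K →ₐ[K] Mt K) (s : K),
    (∀ M, (F M).trace = M.trace) ∧ s * s = 1 ∧ F x = s • X0 ∧ F y = s • Y0 ∧ F z = s • Z0 := by
  have r := fun s t : Mt K => H75.UqEq.rel two_ne_zero hq s t
  obtain ⟨F, l, hl, h0, h1, h2, h3⟩ := H75.UqEq.normal_form two_ne_zero hq (d := 3) x xi y z h.2.1
    (r _ _ h.2.2.1) (r _ _ h.2.2.2.1) (r _ _ h.2.2.2.2.1) h.2.2.2.2.2
  have hs : 8 * l * (8 * l) = 1 := by linear_combination hl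
  have h4 : l ^ 2 = 1 / 64 := by linear_combination hl / 64
  have hy : F y = (8 * l) • Y0 := by
    ext i j; rw [h1]; fin_cases i <;> fin_cases j <;> simp [Y0] <;> ring
  have inv : (Y0 : Mt K) * diagonal ![8, 2, 1/2, 1/8] = 1 ∧
      diagonal ![8, 2, 1/2, 1/8] * (Y0 : Mt K) = 1 := by
    constructor <;> ext i j <;> fin_cases i <;> fin_cases j <;> simp [Y0]
  refine ⟨F, 8 * l, h0, hs, ?_, hy, ?_⟩
  · have : F x * F y = X0 * Y0 := by
      rw [← map_mul, ← sub_sub_cancel 1 (x * y), map_sub F 1, map_one]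
      ext i j; rw [Matrix.sub_apply, h2]; fin_cases i <;> fin_cases j <;> simp [X0, Y0]
    rw [hy, mul_smul_comm, ← smul_mul_assoc] at this
    have := congrArg (fun M => (8 * l) • (M * diagonal ![8, 2, 1/2, 1/8])) this
    simpa only [mul_assoc, inv.1, mul_one, smul_smul, hs, ← mul_assoc 8 l, one_smul] using this
  · have : F y * F z = Y0 * Z0 := by
      rw [← map_mul, ← sub_sub_cancel 1 (y * z), map_sub F 1, map_one]
      ext i j; rw [Matrix.sub_apply, h3, h4]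
      fin_cases i <;> fin_cases j <;> simp [Z0, Y0] <;> norm_num
    rw [hy, smul_mul_assoc, ← mul_smul_comm] at this
    have := congrArg (fun M => (8 * l) • (diagonal ![8, 2, 1/2, 1/8] * M)) this
    simpa only [← mul_assoc, inv.2, one_mul, smul_smul, hs, mul_assoc _ 8 l, one_smul] using this

theorem ev (t0 t1 t2 t3 : K) (h0 : t0 * t0 * t0 * t0 + 7056 = 457 * (t0 * t0))
    (h1 : t1 * t1 * t1 * t1 + 7056 = 457 * (t1 * t1))
    (h2 : t2 * t2 * t2 * t2 + 7056 = 457 * (t2 * t2))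
    (h3 : t3 * t3 * t3 * t3 + 7056 = 457 * (t3 * t3)) (hs : t0 + t1 + t2 + t3 = 0)
    (hr : t0 * t0 + t1 * t1 + t2 * t2 + t3 * t3 = 914) (hd : 4 * (t0 - t3) = 21 * (t1 - t2)) :
    (t0 = 21 ∧ t1 = 4 ∧ t2 = -4 ∧ t3 = -21) ∨ (t0 = -21 ∧ t1 = -4 ∧ t2 = 4 ∧ t3 = 21) := by
  have g : ∀ t : K, t * t * t * t + 7056 = 457 * (t * t) → t = 21 ∨ t = 4 ∨ t = -4 ∨ t = -21 :=
    fun t h => by
    have : (t - 21) * (t - 4) * (t - -4) * (t - -21) = 0 := by linear_combination h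
    simpa only [mul_eq_zero, sub_eq_zero, or_assoc] using this
  rcases g _ h0 with rfl | rfl | rfl | rfl <;> rcases g _ h1 with rfl | rfl | rfl | rfl <;>
    rcases g _ h2 with rfl | rfl | rfl | rfl <;> rcases g _ h3 with rfl | rfl | rfl | rfl <;>
      first | (norm_num at hs; done) | (norm_num at hd; done) | (norm_num at hr; done) | simp

theorem core (S T : Mt K) (hS : InSpan S X0 Y0) (hT : InSpan T Y0 Z0)
    (pA : S * S * S * S + 7056 • 1 = 457 • (S * S)) (pB : T * T * T * T + 7056 • 1 = 457 • (T * T))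
    (u1 : S.trace = 0) (u2 : T.trace = 0) (u3 : (S * T).trace = 0) (u4 : (S * S * T).trace = 0)
    (u5 : (S * S).trace = 914) (u6 : (T * T).trace = 914) : False := by
  obtain ⟨a, b, c, e, hA⟩ := hS
  obtain ⟨a', b', c', e', hB⟩ := hT
  obtain ⟨s0, s1, s2, s3, rfl, k1, k2⟩ : ∃ s0 s1 s2 s3 : K, S =
      !![s0, 0, 0, 0; -(8 * b + e), s1, 0, 0; 0, -(2 * b + e), s2, 0; 0, 0, -(b / 2 + e), s3] ∧
        4 * (s0 - s3) = 21 * (s1 - s2) ∧ 4 * s0 - 5 * s1 + s2 = 45 / 2 * b := by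
    refine ⟨a + e + 8 * b + c / 8, a + e + 2 * b + c / 2, a + e + b / 2 + 2 * c,
      a + e + b / 8 + 8 * c, ?_, by ring, by ring⟩
    rw [hA]
    ext i j; fin_cases i <;> fin_cases j <;> simp [X0, Y0] <;> ring
  obtain ⟨t0, t1, t2, t3, rfl, k3, k4⟩ : ∃ t0 t1 t2 t3 : K, T =
      !![t0, 189 / 256 * (8 * c' + e'), 0, 0; 0, t1, 225 / 64 * (2 * c' + e'), 0;
        0, 0, t2, 189 / 16 * (c' / 2 + e'); 0, 0, 0, t3] ∧
        4 * (t0 - t3) = 21 * (t1 - t2) ∧ 4 * t0 - 5 * t1 + t2 = 45 / 2 * c' := by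
    refine ⟨a' + e' + 8 * c' + b' / 8, a' + e' + 2 * c' + b' / 2, a' + e' + c' / 2 + 2 * b',
      a' + e' + c' / 8 + 8 * b', ?_, by ring, by ring⟩
    rw [hB]
    ext i j; fin_cases i <;> fin_cases j <;> simp [Z0, Y0] <;> ring
  have q := fun (M N : Mt K) (e : M = N) (i : Fin 4) => congrFun (congrFun e i) i
  have a0 := q _ _ pA 0
  have a1 := q _ _ pA 1
  have a2 := q _ _ pA 2
  have a3 := q _ _ pA 3
  have b0 := q _ _ pB 0
  have b1 := q _ _ pB 1
  have b2 := q _ _ pB 2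
  have b3 := q _ _ pB 3
  clear pA pB hA hB
  simp [-mul_eq_zero, Fin.sum_univ_four, trace, ofNat_apply]
    at a0 a1 a2 a3 b0 b1 b2 b3 u1 u2 u3 u4 u5 u6
  rcases ev _ _ _ _ a0 a1 a2 a3 u1 u5 k1 with ⟨rfl, rfl, rfl, rfl⟩ | ⟨rfl, rfl, rfl, rfl⟩ <;>
    rcases ev _ _ _ _ b0 b1 b2 b3 u2 u6 k3 with ⟨rfl, rfl, rfl, rfl⟩ | ⟨rfl, rfl, rfl, rfl⟩
  · obtain rfl : b = 8 / 3 := by linarith
    obtain rfl : c' = 8 / 3 := by linarith
    obtain rfl : e' = -e := by linarith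
    linarith [mul_self_nonneg e]
  · obtain rfl : b = 8 / 3 := by linarith
    obtain rfl : c' = -8 / 3 := by linarith
    obtain rfl : e = e' := by linarith
    linarith [mul_self_nonneg e]
  · obtain rfl : b = -8 / 3 := by linarith
    obtain rfl : c' = 8 / 3 := by linarith
    obtain rfl : e = e' := by linarith
    linarith [mul_self_nonneg e]
  · obtain rfl : b = -8 / 3 := by linarith
    obtain rfl : c' = -8 / 3 := by linarith
    obtain rfl : e' = -e := by linarith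
    linarith [mul_self_nonneg e]

theorem result (K : Type) [Field K] [LinearOrder K] [IsStrictOrderedRing K] :
    ∃ (q : K) (A B : Matrix (Fin 4) (Fin 4) K), q ≠ 0 ∧ (∀ m : ℕ, 0 < m → q ^ m ≠ 1) ∧
      LeonardPair (q ^ 2 + (q ^ 2)⁻¹) A B ∧
        ¬∃ X Xi Y Z, IrrMod q X Xi Y Z ∧ InSpan A X Y ∧ InSpan B Y Z := by
  refine ⟨2, f A, f B, two_ne_zero, hq, ⟨half P2 B A (by decide +kernel) (by decide +kernel),
    half 1 A B (by decide +kernel) (by decide +kernel)⟩, ?_⟩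
  rintro ⟨x, xi, y, z, h, ⟨a, b, c, e, hA⟩, a', b', c', e', hB⟩
  obtain ⟨F, s, h0, hs, hx, hy, hz⟩ := nf x xi y z h
  have tf : ∀ (M : Mt ℚ) (r : ℕ), M.trace = r → (F (f (K := K) M)).trace = r := fun M r hr => by
    have : (f (K := K) M).trace = algebraMap ℚ K M.trace := by simp [f, trace, Fin.sum_univ_four]
    rw [h0, this, hr, map_natCast]
  have pf : ∀ M : Mt ℚ, M * M * M * M + 7056 • 1 = 457 • (M * M) →
      F (f M) * F (f M) * F (f M) * F (f M) + 7056 • 1 = 457 • (F (f M) * F (f (K := K) M)) :=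
    fun M hM => by
      simpa only [map_mul, map_add, map_nsmul, map_one] using congrArg (fun N => F (f N)) hM
  refine core (F (f A)) (F (f B)) ⟨a, b * s, c * s, e, ?_⟩ ⟨a', b' * s, c' * s, e', ?_⟩
    (pf A (by decide +kernel)) (pf B (by decide +kernel))
    (by simpa using tf A 0 (by decide +kernel)) (by simpa using tf B 0 (by decide +kernel))
    (by simpa using tf (A * B) 0 (by decide +kernel))
    (by simpa using tf (A * A * B) 0 (by decide +kernel))
    (by simpa using tf (A * A) 914 (by decide +kernel))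
    (by simpa using tf (B * B) 914 (by decide +kernel))
  · simp only [hA, map_add, map_smul, map_mul, map_one, hx, hy, smul_mul_smul_comm, hs, smul_smul,
      mul_one]
  · simp only [hB, map_add, map_smul, map_mul, map_one, hz, hy, smul_mul_smul_comm, hs, smul_smul,
      mul_one]

end Pool.Agent.Results.MP_32472a_al.RealQRacah
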